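import Pool.Agent.Lib.MP_95bb8c_al.BU.Graph
import Pool.Agent.Lib.MP_95bb8c_al.BU.StarLawBal

set_option autoImplicit false
set_option linter.unusedSectionVars false

/-!
# Generators which are never isolated

Definitions. `inn v` is the set of the edges which join `v` and `bar v`. A set `F` of vertices is
free if each strand which enters `v ∈ F` through an edge outside of `inn v` leaves through an edge
of `inn v`.
-/

namespace Pool.Agent.Lib.MP_95bb8c_al.NI

open Finset Pool.Agent.Lib.MP_95bb8c_al.BU

variable {V E : Type} [Fintype V] [DecidableEq V] [Fintype E] [DecidableEq E]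

/-- The edges which join `v` and `bar v`. -/
def inn (s t : E → V) (bar : V → V) (v : V) : Finset E := cut s t {v} ∩ cut s t {bar v}

/-- Free vertices. -/
structure Free (s t : E → V) (bar : V → V) (sig : V → E → E) (F : Finset V) : Prop where
  bar_mem : ∀ v ∈ F, bar v ∈ F
  nb : ∀ v ∈ F, ∀ e ∈ cut s t {v}, e ∉ cut s t {bar v} → sig v e ∈ cut s t {v}
  ne : ∀ v ∈ F, ∀ e ∈ inn s t bar v, sig v e ≠ e

/-- The edges of weight `0`: the edges of `inn v`, `v ∈ F` with `pos v`, which are not the first
edge of their syllable. -/
def Zero (s t : E → V) (bar : V → V) (sig : V → E → E) (pos : V → Bool) (F : Finset V)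
    (e : E) : Prop :=
  ∃ v ∈ F, pos v = true ∧ e ∈ inn s t bar v ∧ sig (bar v) e ∈ cut s t {bar v}

open Classical in
/-- The weights of the edges: `0` or `1`. -/
noncomputable def kw (s t : E → V) (bar : V → V) (sig : V → E → E) (pos : V → Bool)
    (F : Finset V) (e : E) : ℚ :=
  if Zero s t bar sig pos F e then 0 else 1

end Pool.Agent.Lib.MP_95bb8c_al.NI
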