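import Pool.Agent.Lib.MP_95bb8c_al.NI.Iter
import Pool.Agent.Lib.MP_95bb8c_al.NI.Words

set_option autoImplicit false
set_option linter.unusedSectionVars false

/-!
# The tiling theorem for words: few readings, or never isolated
-/

namespace Pool.Agent.Lib.MP_95bb8c_al.NI

open Finset Pool.Agent.Lib.MP_95bb8c_al.BU

variable {n : ℕ}

/-- Some edge leaves `{v, bar v}`; it is an edge at `v` or at `bar v`, and not at both. -/
theorem exists_out {V E : Type} [Fintype V] [DecidableEq V] [Fintype E] [DecidableEq E]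
    {s t : E → V} {bar : V → V} {sig : V → E → E} (h : Conn2 s t bar sig)
    (hcard : 2 < Fintype.card V) (hconn : Conn s t) (v : V) :
    ∃ x, (x = v ∨ x = bar v) ∧ ∃ e ∈ cut s t {x}, e ∉ cut s t {bar x} := by
  have h2 : ({v, bar v} : Finset V) ≠ univ := by
    intro h3
    have h4 := congrArg Finset.card h3
    rw [Finset.card_pair (h.bar_ne v).symm, Finset.card_univ] at h4
    omega
  obtain ⟨f, hf⟩ := hconn {v, bar v} ⟨v, by simp⟩ h2
  rw [mem_cut] at hf
  have hmem : ∀ x : V, x ∈ ({v, bar v} : Finset V) ↔ (x = v ∨ x = bar v) := by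
    intro x
    rw [Finset.mem_insert, Finset.mem_singleton]
  have hbar : ∀ x : V, x ∈ ({v, bar v} : Finset V) → bar x ∈ ({v, bar v} : Finset V) := by
    intro x hx
    rw [hmem] at hx ⊢
    rcases hx with rfl | rfl
    · exact Or.inr rfl
    · exact Or.inl (h.bar_bar v)
  by_cases h3 : s f ∈ ({v, bar v} : Finset V)
  · have h4 : t f ∉ ({v, bar v} : Finset V) := fun h4 => hf (iff_of_true h3 h4)
    refine ⟨s f, (hmem _).1 h3, f, (mem_star h.hl).mpr (Or.inl rfl), ?_⟩
    rw [mem_star h.hl]
    rintro (h5 | h5)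
    · exact h.bar_ne (s f) h5.symm
    · exact h4 (h5 ▸ hbar _ h3)
  · have h4 : t f ∈ ({v, bar v} : Finset V) := by
      by_contra h4
      exact hf (iff_of_false h3 h4)
    refine ⟨t f, (hmem _).1 h4, f, (mem_star h.hl).mpr (Or.inr rfl), ?_⟩
    rw [mem_star h.hl]
    rintro (h5 | h5)
    · exact h3 (h5 ▸ hbar _ h4)
    · exact h.bar_ne (t f) h5.symm

open Classical in
/-- The tiling theorem for words in which each generator except `a₀` has at most four readings, or
has the same reading at half of its occurrences, or is never isolated: each occurrence is next to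
another occurrence of the same letter. -/
theorem few_readings_ni (hn : 1 < n) (U : List (List (Letter n))) (hU : CycRed U)
    (hconn : Conn (src U) (tgt U)) (hlam : ∀ v, lam U v (bar v) = (star U v).card) (a₀ : Fin n)
    (h : ∀ a : Fin n, a ≠ a₀ → (readings U a).card ≤ 4 ∨
      (∃ r, occ U a ≤
        2 * (univ.filter fun p : Pos U => p.letter.1 = a ∧ reading p = r).card) ∨
      NeverIsolated U a) :
    ∃ L : List (Finset (Pos U)), (∀ C ∈ L, IsCycle (src U) (tgt U) C) ∧ (∃ C ∈ L, 3 ≤ C.card) ∧
      ∀ v, ∀ e ∈ star U v, ∀ f ∈ star U v,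
        (L.countP fun C => e ∈ C ∧ f ∈ C) =
          (L.countP fun C => conMap U v e ∈ C ∧ conMap U v f ∈ C) := by
  let F : Finset (Letter n) := univ.filter fun v : Letter n => v.1 ≠ a₀ ∧ NeverIsolated U v.1
  have hFm : ∀ v : Letter n, v ∈ F ↔ (v.1 ≠ a₀ ∧ NeverIsolated U v.1) := by
    intro v
    show v ∈ (univ.filter fun v : Letter n => v.1 ≠ a₀ ∧ NeverIsolated U v.1) ↔ _
    rw [Finset.mem_filter]
    exact ⟨fun h1 => h1.2, fun h1 => ⟨Finset.mem_univ _, h1⟩⟩
  have hFbar : ∀ v ∈ F, bar v ∈ F := by
    intro v hv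
    rw [hFm] at hv ⊢
    exact hv
  have hF : Free (src U) (tgt U) bar (conMap U) F :=
    free_words hU F hFbar (fun v hv => ((hFm v).1 hv).2)
  have ha : ((a₀, true) : Letter n) ∉ F := fun h1 => ((hFm _).1 h1).1 rfl
  have hC := conn2_words hU hlam
  have hcard : 2 < Fintype.card (Letter n) := by
    rw [Fintype.card_prod, Fintype.card_fin, Fintype.card_bool]
    omega
  have hdg : ∀ v, (cut (src U) (tgt U) {v}).card ≠ 1 := by
    intro v
    have h1 : 2 ≤ (cut (src U) (tgt U) {v}).card :=
      two_le_dg hC.hl hcard hconn bar hC.bar_bar hC.bar_ne hC.dg_bar hC.lam v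
    omega
  have hXm : ∀ v : Letter n, v ∈ F ∪ {((a₀, true) : Letter n), bar (a₀, true)} ↔
      (v ∈ F ∨ v = (a₀, true) ∨ v = bar (a₀, true)) := by
    intro v
    rw [Finset.mem_union, Finset.mem_insert, Finset.mem_singleton]
  by_cases hX : F ∪ {((a₀, true) : Letter n), bar (a₀, true)} = univ
  · have hall : ∀ v : Letter n, v ∈ F ∨ v = (a₀, true) ∨ v = bar (a₀, true) := by
      intro v
      rw [← hXm, hX]
      exact Finset.mem_univ v
    obtain ⟨u, hu0, hcyc, -, -, hbal, hlong⟩ := star_free (L := Unit) hC hdg (fun v => v.2)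
      (fun v => rfl) hF (a₀, true) ha (fun _ _ => ()) (fun v h1 h2 h3 => by
        rcases hall v with h4 | h4 | h4
        · exact absurd h4 h1
        · exact absurd h4 h2
        · exact absurd h4 h3)
    refine tiling_of_law hC u hu0 hcyc (fun v => hbal v (hall v)) ?_
    obtain ⟨a, haa⟩ : ∃ a : Fin n, a ≠ a₀ := by
      have : Nontrivial (Fin n) := Fin.nontrivial_iff_two_le.mpr hn
      exact exists_ne a₀
    have haF : ((a, true) : Letter n) ∈ F := by
      rcases hall (a, true) with h4 | h4 | h4
      · exact h4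
      · exact absurd (congrArg Prod.fst h4) haa
      · exact absurd (congrArg Prod.fst h4) haa
    obtain ⟨x, hx, e, he, he'⟩ := exists_out hC hcard hconn (a, true)
    have hxF : x ∈ F := by
      rcases hx with rfl | rfl
      · exact haF
      · exact hFbar _ haF
    exact ⟨x, e, he, conMap U x e, hF.nb x hxF e he he', he', hC.mem x e he,
      hlong x hxF e he he'⟩
  · refine tiling_of_starX hn U hU hconn hlam _ ?_ hX
      (starX_free hC hdg (fun v => v.2) (fun v => rfl) hF (a₀, true) ha) ?_
    · intro v hv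
      rw [hXm] at hv ⊢
      rcases hv with h4 | rfl | rfl
      · exact Or.inl (hFbar v h4)
      · exact Or.inr (Or.inr rfl)
      · exact Or.inr (Or.inl (hC.bar_bar _))
    · intro v hv
      rw [hXm] at hv
      push Not at hv
      have hva : v.1 ≠ a₀ := by
        intro h1
        rcases v with ⟨v1, v2⟩
        have h2 : v1 = a₀ := h1
        subst h2
        cases v2
        · exact hv.2.2 rfl
        · exact hv.2.1 rfl
      rcases h v.1 hva with h1 | h1 | h1
      · exact Or.inl h1
      · exact Or.inr h1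
      · exact absurd ((hFm v).2 ⟨hva, h1⟩) hv.1

end Pool.Agent.Lib.MP_95bb8c_al.NI
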