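import Pool.Agent.Lib.MP_95bb8c_al.NI.Defs

set_option autoImplicit false
set_option linter.unusedSectionVars false

/-!
# The tiling theorem in its graph form, for any exceptional set of vertices
-/

namespace Pool.Agent.Lib.MP_95bb8c_al.NI

open Finset Pool.Agent.Lib.MP_95bb8c_al.BU

variable {V E K : Type} [Fintype V] [DecidableEq V] [Fintype E] [DecidableEq E]
  [Fintype K] [DecidableEq K]
variable {s t : E → V} {bar : V → V} {sig : V → E → E}

/-- If each edge at `v` is also an edge at `bar v`, the graph has at most two vertices. -/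
theorem not_all_bar (h : Conn2 s t bar sig) (hcard : 2 < Fintype.card V)
    (hconn : Conn s t) (hall : ∀ v, ∀ e ∈ cut s t {v}, e ∈ cut s t {bar v}) : False := by
  have hne : Nonempty V := Fintype.card_pos_iff.mp (by omega)
  obtain ⟨v⟩ := hne
  have h2 : ({v, bar v} : Finset V) ≠ univ := by
    intro h3
    have h4 := congrArg Finset.card h3
    rw [Finset.card_pair (h.bar_ne v).symm, Finset.card_univ] at h4
    omega
  obtain ⟨f, hf⟩ := hconn {v, bar v} ⟨v, by simp⟩ h2
  have hout : ∀ x y : V, x ∈ ({v, bar v} : Finset V) → y ∉ ({v, bar v} : Finset V) →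
      x = s f ∧ y = t f ∨ x = t f ∧ y = s f → False := by
    intro x y hx hy hxy
    have hbx : bar x ∈ ({v, bar v} : Finset V) := by
      rw [Finset.mem_insert, Finset.mem_singleton] at hx ⊢
      rcases hx with rfl | rfl
      · exact Or.inr rfl
      · exact Or.inl (h.bar_bar v)
    have h5 : f ∈ cut s t {x} := by
      rw [mem_star h.hl]
      rcases hxy with ⟨h6, -⟩ | ⟨h6, -⟩
      · exact Or.inl h6.symm
      · exact Or.inr h6.symm
    have h6 := hall x f h5
    rw [mem_star h.hl] at h6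
    have h7 := h.bar_ne x
    rcases hxy with ⟨h8, h9⟩ | ⟨h8, h9⟩
    · rcases h6 with h6 | h6
      · exact h7 (h6.symm.trans h8.symm)
      · apply hy
        rw [h9, h6]
        exact hbx
    · rcases h6 with h6 | h6
      · apply hy
        rw [h9, h6]
        exact hbx
      · exact h7 (h6.symm.trans h8.symm)
  rw [mem_cut] at hf
  by_cases h3 : s f ∈ ({v, bar v} : Finset V)
  · exact hout (s f) (t f) h3 (fun h4 => hf (iff_of_true h3 h4)) (Or.inl ⟨rfl, rfl⟩)
  · have h4 : t f ∈ ({v, bar v} : Finset V) := by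
      by_contra h4
      exact hf (iff_of_false h3 h4)
    exact hout (t f) (s f) h4 h3 (Or.inr ⟨rfl, rfl⟩)

/-- As `BU.tiling_of_star`, for any exceptional set `X` of vertices except `univ`. -/
theorem tiling_of_star_ne (h : Conn2 s t bar sig) (hcard : 2 < Fintype.card V)
    (hconn : Conn s t) (pos : V → Bool) (hpos : ∀ v, pos (bar v) = !pos v) {b : E → K}
    (hb : Cls s t sig b)
    (hmax : ∀ R : E → E → Prop, (∀ e f, R e f → ∀ v, e ∈ cut s t {v} →
      f ∈ cut s t {v} ∧ R (sig v e) (sig v f)) → ∀ e f, R e f → b e = b f)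
    {X : Finset V} (hX : ∀ v ∈ X, bar v ∈ X) (hXne : X ≠ univ)
    (hstar : StarX (E ⊕ Fin 4) s t sig X)
    (hcls : ∀ v, v ∉ X → ((cut s t {v}).image b).card ≤ 4 ∨ ∃ e ∈ cut s t {v},
      dg s t v ≤ 2 * ((cut s t {v}).filter fun f => b f = b e).card) :
    ∃ L : List (Finset E), (∀ C ∈ L, IsCycle s t C) ∧ (∃ C ∈ L, 3 ≤ C.card) ∧
      ∀ v, ∀ e ∈ cut s t {v}, ∀ f ∈ cut s t {v},
        (L.countP fun C => e ∈ C ∧ f ∈ C) = (L.countP fun C => sig v e ∈ C ∧ sig v f ∈ C) := by
  have hdg : ∀ v, 2 ≤ (cut s t {v}).card := fun v =>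
    two_le_dg h.hl hcard hconn bar h.bar_bar h.bar_ne h.dg_bar h.lam v
  have hpot : ∀ v, v ∉ X → PotH (E ⊕ Fin 4) (cut s t {v}) b := by
    intro v hvX
    by_cases hex : ∃ e ∈ cut s t {v},
        dg s t v ≤ 2 * ((cut s t {v}).filter fun f => b f = b e).card
    · obtain ⟨e, he, he2⟩ := hex
      exact potH_half (cut s t {v}) b (hdg v) e he he2
    · have h4 := (hcls v hvX).resolve_right hex
      push Not at hex
      exact potH_four (cut s t {v}) b h4 (fun e he => (hex e he).le)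
  have : Nonempty (E ⊕ Fin 4) := ⟨Sum.inr 0⟩
  obtain ⟨u₀, hu₀, hbal₀⟩ := class_law h pos hpos hb hX hstar hpot
  obtain ⟨u, hu, hbal⟩ := BU.balanced_law h hb u₀ hu₀ hbal₀
  obtain ⟨L, N, hN, hL1, hL2⟩ := OE.list_of_law h.hl u hu.nonneg (fun C => C)
    (fun C hC => (hu.cyc C hC).1.deg)
  have hNq : (0 : ℚ) < N := by exact_mod_cast hN
  have hpw : ∀ v, ∀ e ∈ cut s t {v}, ∀ f ∈ cut s t {v},
      ((L.countP fun C => e ∈ C ∧ f ∈ C : ℕ) : ℚ) = N * pw u e f := by
    intro v e he f hf
    rw [hL2 v e he f hf]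
    unfold pw
    congr 1
    apply Finset.sum_congr rfl
    intro C _
    split_ifs <;> simp
  have hcount : ∀ v, ∀ e ∈ cut s t {v}, ∀ f ∈ cut s t {v},
      (L.countP fun C => e ∈ C ∧ f ∈ C) = (L.countP fun C => sig v e ∈ C ∧ sig v f ∈ C) := by
    intro v e he f hf
    have h1 := hpw v e he f hf
    have h2 := hpw (bar v) _ (h.mem v e he) _ (h.mem v f hf)
    rw [← hbal v e he f hf, ← h1] at h2
    exact_mod_cast h2.symm
  refine ⟨L, hL1, ?_, hcount⟩
  by_contra hlong
  push Not at hlong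
  have hs : ∀ e : E, e ∈ cut s t {s e} := fun e => (mem_star h.hl).mpr (Or.inl rfl)
  have hself : ∀ e : E, ∃ C ∈ L, e ∈ C := by
    intro e
    have h1 := hpw (s e) e (hs e) e (hs e)
    have h2 : pw u e e = 1 := by
      rw [← hu.marg e]
      unfold pw
      simp
    rw [h2, mul_one] at h1
    have h3 : 0 < (L.countP fun C => e ∈ C ∧ e ∈ C) := by
      have : (0 : ℚ) < ((L.countP fun C => e ∈ C ∧ e ∈ C : ℕ) : ℚ) := by
        rw [h1]
        exact hNq
      exact_mod_cast this
    rw [List.countP_pos_iff] at h3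
    obtain ⟨C, hC, hC2⟩ := h3
    rw [decide_eq_true_eq] at hC2
    exact ⟨C, hC, hC2.1⟩
  have htwo : ∀ C ∈ L, ∀ v, ∀ e ∈ C, e ∈ cut s t {v} → C ⊆ cut s t {v} ∧ C.card = 2 := by
    intro C hC v e he hev
    have h1 : (C ∩ cut s t {v}).card = 2 := by
      rcases (hL1 C hC).deg v with h2 | h2
      · rw [Finset.card_eq_zero] at h2
        have h3 : e ∈ C ∩ cut s t {v} := Finset.mem_inter.mpr ⟨he, hev⟩
        rw [h2] at h3
        simp at h3
      · exact h2
    have h2 := hlong C hC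
    have h3 : C ∩ cut s t {v} = C := by
      apply Finset.eq_of_subset_of_card_le Finset.inter_subset_left
      omega
    refine ⟨?_, ?_⟩
    · intro f hf
      rw [← h3] at hf
      exact (Finset.mem_inter.mp hf).2
    · rw [← h3]
      exact h1
  have hR : ∀ e f, (∃ C ∈ L, e ∈ C ∧ f ∈ C) → b e = b f := by
    apply hmax (fun e f => ∃ C ∈ L, e ∈ C ∧ f ∈ C)
    rintro e f ⟨C, hC, he, hf⟩ v hev
    have hfv := (htwo C hC v e he hev).1 hf
    refine ⟨hfv, ?_⟩
    have h1 : 0 < (L.countP fun C => e ∈ C ∧ f ∈ C) := by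
      rw [List.countP_pos_iff]
      refine ⟨C, hC, ?_⟩
      rw [decide_eq_true_eq]
      exact ⟨he, hf⟩
    rw [hcount v e hev f hfv, List.countP_pos_iff] at h1
    obtain ⟨C', hC', hC2⟩ := h1
    rw [decide_eq_true_eq] at hC2
    exact ⟨C', hC', hC2⟩
  have hout : ∀ v, v ∉ X → ∀ e ∈ cut s t {v}, e ∈ cut s t {bar v} := by
    intro v hvX e hev
    obtain ⟨C, hC, he⟩ := hself e
    obtain ⟨hsub, hc2⟩ := htwo C hC v e he hev
    obtain ⟨f, hf, hfe⟩ : ∃ f ∈ C, f ≠ e := by
      apply Finset.exists_mem_ne (by omega)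
    have hfv := hsub hf
    have hbef := hR e f ⟨C, hC, he, hf⟩
    have h1 : 0 < (L.countP fun C => e ∈ C ∧ f ∈ C) := by
      rw [List.countP_pos_iff]
      refine ⟨C, hC, ?_⟩
      rw [decide_eq_true_eq]
      exact ⟨he, hf⟩
    have h2 : pw u e f ≠ 0 := by
      intro h3
      have h4 := hpw v e hev f hfv
      rw [h3, mul_zero] at h4
      have h5 : (L.countP fun C => e ∈ C ∧ f ∈ C) = 0 := by exact_mod_cast h4
      omega
    unfold pw at h2
    obtain ⟨C', -, hC'⟩ := Finset.exists_ne_zero_of_sum_ne_zero h2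
    by_cases hm : e ∈ C' ∧ f ∈ C'
    · rw [if_pos hm] at hC'
      exact dom_end h hb hev ((hu.cyc C' hC').2 v hvX e hm.1 f hm.2 hev hfv hfe.symm hbef)
    · rw [if_neg hm] at hC'
      exact absurd rfl hC'
  have hXin : ∀ v ∈ X, ∀ w, ∀ e, e ∈ cut s t {v} → e ∈ cut s t {w} → w ∈ X := by
    intro v hvX w e hev hew
    by_contra hwX
    have h1 := hout w hwX e hew
    have h2 := (mem_star h.hl).1 h1
    have h3 := (mem_star h.hl).1 hew
    have h4 := (mem_star h.hl).1 hev
    have h5 := h.bar_ne w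
    have hw : w ≠ v := fun h6 => hwX (h6 ▸ hvX)
    have h6 : v = bar w := by
      rcases h3 with h3 | h3
      · rcases h4 with h4 | h4
        · exact absurd (h3.symm.trans h4) hw
        · rcases h2 with h2 | h2
          · exact absurd (h2.symm.trans h3) h5
          · exact h4.symm.trans h2
      · rcases h4 with h4 | h4
        · rcases h2 with h2 | h2
          · exact h4.symm.trans h2
          · exact absurd (h2.symm.trans h3) h5
        · exact absurd (h3.symm.trans h4) hw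
    apply hwX
    have h7 := hX v hvX
    rw [h6, h.bar_bar] at h7
    exact h7
  by_cases hXe : X.Nonempty
  · obtain ⟨f, hf⟩ := hconn X hXe hXne
    rw [mem_cut] at hf
    have h1 : f ∈ cut s t {s f} := (mem_star h.hl).mpr (Or.inl rfl)
    have h2 : f ∈ cut s t {t f} := (mem_star h.hl).mpr (Or.inr rfl)
    exact hf ⟨fun h3 => hXin _ h3 _ f h1 h2, fun h3 => hXin _ h3 _ f h2 h1⟩
  · apply not_all_bar h hcard hconn
    intro v e hev
    exact hout v (fun hv => hXe ⟨v, hv⟩) e hev

/-- A law which is balanced at all vertices and has a turn between edges which are not parallel. -/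
theorem tiling_of_law (h : Conn2 s t bar sig) (u : Finset E → ℚ) (hu0 : ∀ C, 0 ≤ u C)
    (hcyc : ∀ C, u C ≠ 0 → IsCycle s t C)
    (hbal : ∀ v, ∀ e ∈ cut s t {v}, ∀ f ∈ cut s t {v}, pw u e f = pw u (sig v e) (sig v f))
    (hlong : ∃ v, ∃ e ∈ cut s t {v}, ∃ f ∈ cut s t {v}, e ∉ cut s t {bar v} ∧
      f ∈ cut s t {bar v} ∧ 0 < pw u e f) :
    ∃ L : List (Finset E), (∀ C ∈ L, IsCycle s t C) ∧ (∃ C ∈ L, 3 ≤ C.card) ∧
      ∀ v, ∀ e ∈ cut s t {v}, ∀ f ∈ cut s t {v},
        (L.countP fun C => e ∈ C ∧ f ∈ C) = (L.countP fun C => sig v e ∈ C ∧ sig v f ∈ C) := by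
  obtain ⟨L, N, hN, hL1, hL2⟩ := OE.list_of_law h.hl u hu0 (fun C => C)
    (fun C hC => (hcyc C hC).deg)
  have hNq : (0 : ℚ) < N := by exact_mod_cast hN
  have hpw : ∀ v, ∀ e ∈ cut s t {v}, ∀ f ∈ cut s t {v},
      ((L.countP fun C => e ∈ C ∧ f ∈ C : ℕ) : ℚ) = N * pw u e f := by
    intro v e he f hf
    rw [hL2 v e he f hf]
    unfold pw
    congr 1
    apply Finset.sum_congr rfl
    intro C _
    split_ifs <;> simp
  refine ⟨L, hL1, ?_, ?_⟩
  · obtain ⟨v, e, he, f, hf, he', hf', hlt⟩ := hlong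
    have h1 := hpw v e he f hf
    have h2 : 0 < (L.countP fun C => e ∈ C ∧ f ∈ C) := by
      have h3 : (0 : ℚ) < ((L.countP fun C => e ∈ C ∧ f ∈ C : ℕ) : ℚ) := by
        rw [h1]
        exact mul_pos hNq hlt
      exact_mod_cast h3
    rw [List.countP_pos_iff] at h2
    obtain ⟨C, hC, hC2⟩ := h2
    rw [decide_eq_true_eq] at hC2
    refine ⟨C, hC, ?_⟩
    by_contra h3
    push Not at h3
    have h4 : (C ∩ cut s t {bar v}).card = 2 := by
      rcases (hL1 C hC).deg (bar v) with h5 | h5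
      · exfalso
        rw [Finset.card_eq_zero] at h5
        have h6 : f ∈ C ∩ cut s t {bar v} := Finset.mem_inter.mpr ⟨hC2.2, hf'⟩
        rw [h5] at h6
        exact absurd h6 (Finset.notMem_empty f)
      · exact h5
    have h5 : C ∩ cut s t {bar v} = C := by
      apply Finset.eq_of_subset_of_card_le Finset.inter_subset_left
      omega
    have h6 : e ∈ C ∩ cut s t {bar v} := by
      rw [h5]
      exact hC2.1
    exact he' (Finset.mem_inter.mp h6).2
  · intro v e he f hf
    have h1 := hpw v e he f hf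
    have h2 := hpw (bar v) _ (h.mem v e he) _ (h.mem v f hf)
    rw [← hbal v e he f hf, ← h1] at h2
    exact_mod_cast h2.symm

end Pool.Agent.Lib.MP_95bb8c_al.NI
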