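import Pool.Agent.Lib.MP_95bb8c_al.NI.StarK
import Pool.Agent.Lib.MP_95bb8c_al.BU.IsoMain

set_option autoImplicit false
set_option linter.unusedSectionVars false

namespace Pool.Agent.Lib.MP_95bb8c_al.NI

open Finset Pool.Agent.Lib.MP_95bb8c_al.BU

variable {V E L : Type} [Fintype V] [DecidableEq V] [Fintype E] [DecidableEq E]
  [Fintype L] [DecidableEq L]
variable {s t : E → V} {bar : V → V} {sig : V → E → E}

theorem Free.nonIso (h : Conn2 s t bar sig) {F : Finset V} (hF : Free s t bar sig F) :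
    NonIso s t bar sig F := by
  refine ⟨hF.bar_mem, hF.nb, ?_⟩
  intro v hv e he hse
  by_cases he' : e ∈ cut s t {bar v}
  · exact hF.ne v hv e (Finset.mem_inter.2 ⟨he, he'⟩) hse
  · apply he'
    rw [← hse]
    exact h.mem v e he

/-- An edge at a vertex outside of `F` joins no partners of `F`. -/
theorem not_inn (h : Conn2 s t bar sig) {F : Finset V} (hb : ∀ v ∈ F, bar v ∈ F) {v : V}
    (hv : v ∉ F) {e : E} (he : e ∈ cut s t {v}) :
    ∀ w ∈ F, ¬ (e ∈ cut s t {w} ∧ e ∈ cut s t {bar w}) := by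
  rintro w hw ⟨h1, h2⟩
  rcases ends_inn h h1 h2 he with h3 | h3
  · exact hv (h3 ▸ hw)
  · exact hv (h3 ▸ hb w hw)

/-- An edge at `v` which is not at `bar v` joins no partners of `F`. -/
theorem not_inn' (h : Conn2 s t bar sig) {F : Finset V} {v : V} {e : E} (he : e ∈ cut s t {v})
    (he' : e ∉ cut s t {bar v}) : ∀ w ∈ F, ¬ (e ∈ cut s t {w} ∧ e ∈ cut s t {bar w}) := by
  rintro w _ ⟨h1, h2⟩
  apply he'
  rcases ends_inn h h1 h2 he with h3 | h3
  · rw [h3]
    exact h2
  · rw [h3, h.bar_bar]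
    exact h1

/-- The pairs at the other vertices do not change. -/
theorem lw_pair_out (h : Conn2 s t bar sig) {pos : V → Bool}
    (hpos : ∀ v, pos (bar v) = !pos v) {F : Finset V} (hF : NonIso s t bar sig F)
    (u : Finset E → ℚ) {e f : E}
    (he : ∀ w ∈ F, ¬ (e ∈ cut s t {w} ∧ e ∈ cut s t {bar w}))
    (hf : ∀ w ∈ F, ¬ (f ∈ cut s t {w} ∧ f ∈ cut s t {bar w})) :
    pw (lw s t bar sig pos F u) e f = pw u e f := by
  have h1 : pw (lw s t bar sig pos F u) e f =
      ∑ C', if (e ∈ C' ∧ f ∈ C') then lw s t bar sig pos F u C' else 0 := rfl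
  have h2 : ∀ x, (∑ C, if e ∈ gl s t bar sig pos F x C ∧ f ∈ gl s t bar sig pos F x C
      then u C else 0) = pw u e f := by
    intro x
    unfold pw
    refine sum_supp fun C _ => ?_
    rw [mem_gl_out h hF he, mem_gl_out h hF hf]
  have h3 : ∑ v ∈ F, ∑ e' ∈ cut s t {v},
      (if (e' ∈ cut s t {bar v} ∧ sig v e' ∈ cut s t {v}) ∧
        (e ∈ ({e', sig v e'} : Finset E) ∧ f ∈ ({e', sig v e'} : Finset E))
        then (1 / 4 : ℚ) else 0) = 0 := by
    refine Finset.sum_eq_zero fun v hv => Finset.sum_eq_zero fun e' he' => ?_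
    rw [if_neg]
    rintro ⟨⟨h4, h5⟩, h6, -⟩
    rw [Finset.mem_insert, Finset.mem_singleton] at h6
    rcases h6 with rfl | rfl
    · exact he v hv ⟨he', h4⟩
    · exact he v hv ⟨h5, h.mem v e' he'⟩
  rw [h1, sum_lw u (s e) hpos (fun C' => e ∈ C' ∧ f ∈ C'), h2, h2, h3]
  ring

/-- The support of the lifted law. -/
theorem lw_supp {pos : V → Bool} {F : Finset V} {u : Finset E → ℚ} {C' : Finset E}
    (hC : lw s t bar sig pos F u C' ≠ 0) :
    (∃ x C, u C ≠ 0 ∧ gl s t bar sig pos F x C = C') ∨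
      ∃ v ∈ F, ∃ e ∈ cut s t {v}, e ∈ cut s t {bar v} ∧ sig v e ∈ cut s t {v} ∧
        ({e, sig v e} : Finset E) = C' := by
  by_contra hcon
  push Not at hcon
  obtain ⟨h1, h2⟩ := hcon
  apply hC
  have h3 : ∀ x, push (gl s t bar sig pos F x) u C' = 0 := by
    intro x
    unfold push
    refine Finset.sum_eq_zero fun C _ => ?_
    by_cases h4 : u C = 0
    · rw [h4]
      simp
    · rw [if_neg (h1 x C h4)]
  have h4 : fl s t bar sig F C' = 0 := by
    unfold fl
    refine Finset.sum_eq_zero fun v hv => Finset.sum_eq_zero fun e he => ?_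
    rw [if_neg]
    rintro ⟨⟨h5, h6⟩, h7⟩
    exact h2 v hv e he h5 h6 h7
  unfold lw
  rw [h3, h3, h4]
  norm_num

theorem lw_nonneg {pos : V → Bool} {F : Finset V} {u : Finset E → ℚ} (hu : ∀ C, 0 ≤ u C)
    (C' : Finset E) : 0 ≤ lw s t bar sig pos F u C' := by
  have h1 : ∀ x, 0 ≤ push (gl s t bar sig pos F x) u C' := by
    intro x
    unfold push
    refine Finset.sum_nonneg fun C _ => ?_
    split_ifs
    · exact hu C
    · exact le_rfl
  have h2 : 0 ≤ fl s t bar sig F C' := by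
    unfold fl
    refine Finset.sum_nonneg fun v _ => Finset.sum_nonneg fun e _ => ?_
    split_ifs <;> norm_num
  unfold lw
  have := h1 true
  have := h1 false
  positivity

/-- The star law which is exact at the free vertices and at `a`, `bar a`, in full. -/
theorem star_free' (h : Conn2 s t bar sig) (hdg : ∀ v, (cut s t {v}).card ≠ 1)
    (pos : V → Bool) (hpos : ∀ v, pos (bar v) = !pos v) {F : Finset V}
    (hF : Free s t bar sig F) (a : V) (ha : a ∉ F) (π : V → E → L)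
    (hπ : ∀ v, v ∉ F → v ≠ a → v ≠ bar a → ∀ l, 2 * (part s t π v l).card ≤ dg s t v) :
    ∃ u : Finset E → ℚ, (∀ C, 0 ≤ u C) ∧ (∀ C, u C ≠ 0 → IsCycle s t C) ∧
      (∀ C, u C ≠ 0 → ∀ v, v ∉ F → v ≠ a → v ≠ bar a → ∀ e ∈ C, ∀ f ∈ C,
        e ∈ cut s t {v} → f ∈ cut s t {v} → e ≠ f → π v e ≠ π v f) ∧
      (∀ e, ∑ C, (if e ∈ C then u C else 0) = 1) ∧
      (∀ v, (v ∈ F ∨ v = a ∨ v = bar a) → ∀ e ∈ cut s t {v}, ∀ f ∈ cut s t {v},
        pw u e f = pw u (sig v e) (sig v f)) ∧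
      (∀ v ∈ F, ∀ e ∈ cut s t {v}, e ∉ cut s t {bar v} → 0 < pw u e (sig v e)) ∧
      (∀ C, u C ≠ 0 → ∀ v ∈ F, ∀ e ∈ C, e ∈ cut s t {v} → e ∉ cut s t {bar v} →
        3 ≤ C.card) := by
  classical
  obtain ⟨u, hu0, hu1, hu2, hu3, hu4, hu5⟩ := star_law_kw h hdg pos hpos hF a ha π hπ
  have hN := hF.nonIso h
  have hT : ∀ C, u C ≠ 0 → Turn s t bar F C := fun C hC v hv => hu3 C hC v hv
  have hm : ∀ e, (∀ w ∈ F, ¬ (e ∈ cut s t {w} ∧ e ∈ cut s t {bar w})) →
      ∑ C, (if e ∈ C then u C else 0) = 1 := by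
    intro e he
    rw [hu4]
    have h1 : e ∈ cut s t {s e} := (mem_star h.hl).2 (Or.inl rfl)
    refine kw_eq_one h pos hF h1 ?_
    by_cases h2 : s e ∈ F
    · exact Or.inr fun h3 => he (s e) h2 ⟨h1, h3⟩
    · exact Or.inl h2
  have hm' : ∀ v ∈ F, ∀ e ∈ cut s t {v}, e ∉ cut s t {bar v} →
      ∑ C, (if e ∈ C then u C else 0) = 1 := fun v _ e he he' => hm e (not_inn' h he he')
  have hbF : ∀ v, v ∉ F → bar v ∉ F := by
    intro v hv h1
    apply hv
    have h2 := hF.bar_mem _ h1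
    rwa [h.bar_bar] at h2
  have hself : ∀ e, pw (lw s t bar sig pos F u) e e = 1 := by
    intro e
    rw [← lw_marg h hpos hN u hm e]
    unfold pw
    refine Finset.sum_congr rfl fun C _ => ?_
    simp only [and_self]
  refine ⟨lw s t bar sig pos F u, lw_nonneg hu0, ?_, ?_, lw_marg h hpos hN u hm, ?_, ?_, ?_⟩
  · intro C hC
    rcases lw_supp hC with ⟨x, C₀, hC₀, rfl⟩ | ⟨v, hv, e, he, he', hs, rfl⟩
    · exact gl_cycle h hpos hN x (hu1 C₀ hC₀) (hT C₀ hC₀)
    · exact cycle_pair h.hl (hN.ne v hv e he) (par_inn h he he' hs (h.mem v e he))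
  · intro C hC v hv hva hvb e he f hf hev hfv hef
    rcases lw_supp hC with ⟨x, C₀, hC₀, rfl⟩ | ⟨w, hw, e', he1, he2, hs, rfl⟩
    · rw [mem_gl_out h hN (not_inn h hF.bar_mem hv hev)] at he
      rw [mem_gl_out h hN (not_inn h hF.bar_mem hv hfv)] at hf
      exact hu2 C₀ hC₀ v hv hva hvb e he f hf hev hfv hef
    · exfalso
      rw [Finset.mem_insert, Finset.mem_singleton] at he
      rcases he with rfl | rfl
      · exact not_inn h hF.bar_mem hv hev w hw ⟨he1, he2⟩
      · exact not_inn h hF.bar_mem hv hev w hw ⟨hs, h.mem w e' he1⟩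
  · intro v hv e he f hf
    by_cases hef : e = f
    · subst hef
      rw [hself, hself]
    by_cases hvF : v ∈ F
    · exact lw_bal h hpos hN u hT hm' hvF he hf hef
    · have hv' : v = a ∨ v = bar a := hv.resolve_left hvF
      rw [lw_pair_out h hpos hN u (not_inn h hF.bar_mem hvF he) (not_inn h hF.bar_mem hvF hf),
        lw_pair_out h hpos hN u (not_inn h hF.bar_mem (hbF v hvF) (h.mem v e he))
          (not_inn h hF.bar_mem (hbF v hvF) (h.mem v f hf))]
      exact hu5 v hv' e he f hf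
  · intro v hv e he he'
    have h1 : e ≠ sig v e := by
      intro h2
      apply he'
      rw [h2]
      exact h.mem v e he
    rw [lw_pair h hpos hN u hT hv (hm' v hv) he (hF.nb v hv e he he') h1, if_pos rfl]
    have h2 : ∀ x y, 0 ≤ pw u x y := by
      intro x y
      unfold pw
      refine Finset.sum_nonneg fun C _ => ?_
      split_ifs
      · exact hu0 C
      · exact le_rfl
    have h3 := h2 e (sig v (sig v e))
    have h4 := h2 (sig v e) (sig v e)
    split_ifs <;> linarith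
  · intro C hC v hv e he hev he'
    rcases lw_supp hC with ⟨x, C₀, hC₀, rfl⟩ | ⟨w, hw, e', he1, he2, hs, rfl⟩
    · have hcyc := gl_cycle h hpos hN x (hu1 C₀ hC₀) (hT C₀ hC₀)
      by_contra hcard
      have h1 : ((gl s t bar sig pos F x C₀) ∩ cut s t {v}).card = 2 := by
        rcases hcyc.deg v with h2 | h2
        · exact absurd (Finset.card_eq_zero.1 h2)
            (Finset.nonempty_iff_ne_empty.1 ⟨e, Finset.mem_inter.2 ⟨he, hev⟩⟩)
        · exact h2
      obtain ⟨f, hf, hfe⟩ := Finset.exists_mem_ne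
        (by omega : 1 < ((gl s t bar sig pos F x C₀) ∩ cut s t {v}).card) e
      rw [Finset.mem_inter] at hf
      have h2 : f ∈ cut s t {bar v} := by
        by_contra h3
        have h4 := (mem_gl_out h hN (not_inn' h hev he')).1 he
        have h5 := (mem_gl_out h hN (not_inn' h hf.2 h3)).1 hf.1
        exact hfe (turn_unique (hT C₀ hC₀) hv h5 h4 hf.2 hev h3 he')
      -- the other end of `e`
      obtain ⟨w, hw, hew⟩ : ∃ w, w ≠ v ∧ e ∈ cut s t {w} := by
        have h1 := (mem_star h.hl).1 hev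
        rcases h1 with h1 | h1
        · exact ⟨t e, fun h2 => h.hl e (h1.trans h2.symm), (mem_star h.hl).2 (Or.inr rfl)⟩
        · exact ⟨s e, fun h2 => h.hl e (h2.trans h1.symm), (mem_star h.hl).2 (Or.inl rfl)⟩
      have h3 : ((gl s t bar sig pos F x C₀) ∩ cut s t {w}).card = 2 := by
        rcases hcyc.deg w with h4 | h4
        · exact absurd (Finset.card_eq_zero.1 h4)
            (Finset.nonempty_iff_ne_empty.1 ⟨e, Finset.mem_inter.2 ⟨he, hew⟩⟩)
        · exact h4
      have h4 : (gl s t bar sig pos F x C₀) ∩ cut s t {w} = gl s t bar sig pos F x C₀ := by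
        apply Finset.eq_of_subset_of_card_le Finset.inter_subset_left
        omega
      have h5 : f ∈ cut s t {w} := by
        have h6 := hf.1
        rw [← h4] at h6
        exact (Finset.mem_inter.1 h6).2
      rcases ends_inn h hf.2 h2 h5 with h6 | h6
      · exact hw h6
      · apply he'
        rw [← h6]
        exact hew
    · exfalso
      rw [Finset.mem_insert, Finset.mem_singleton] at he
      rcases he with rfl | rfl
      · exact not_inn' (F := F) h hev he' w hw ⟨he1, he2⟩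
      · exact not_inn' (F := F) h hev he' w hw ⟨hs, h.mem w e' he1⟩

/-- The star law which is exact at the free vertices and at `a`, `bar a`. -/
theorem star_free (h : Conn2 s t bar sig) (hdg : ∀ v, (cut s t {v}).card ≠ 1)
    (pos : V → Bool) (hpos : ∀ v, pos (bar v) = !pos v) {F : Finset V}
    (hF : Free s t bar sig F) (a : V) (ha : a ∉ F) (π : V → E → L)
    (hπ : ∀ v, v ∉ F → v ≠ a → v ≠ bar a → ∀ l, 2 * (part s t π v l).card ≤ dg s t v) :
    ∃ u : Finset E → ℚ, (∀ C, 0 ≤ u C) ∧ (∀ C, u C ≠ 0 → IsCycle s t C) ∧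
      (∀ C, u C ≠ 0 → ∀ v, v ∉ F → v ≠ a → v ≠ bar a → ∀ e ∈ C, ∀ f ∈ C,
        e ∈ cut s t {v} → f ∈ cut s t {v} → e ≠ f → π v e ≠ π v f) ∧
      (∀ e, ∑ C, (if e ∈ C then u C else 0) = 1) ∧
      (∀ v, (v ∈ F ∨ v = a ∨ v = bar a) → ∀ e ∈ cut s t {v}, ∀ f ∈ cut s t {v},
        pw u e f = pw u (sig v e) (sig v f)) ∧
      ∀ v ∈ F, ∀ e ∈ cut s t {v}, e ∉ cut s t {bar v} → 0 < pw u e (sig v e) := by
  obtain ⟨u, h1, h2, h3, h4, h5, h6, -⟩ := star_free' h hdg pos hpos hF a ha π hπ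
  exact ⟨u, h1, h2, h3, h4, h5, h6⟩

/-- The exceptional set may contain all free vertices. -/
theorem starX_free (h : Conn2 s t bar sig) (hdg : ∀ v, (cut s t {v}).card ≠ 1)
    (pos : V → Bool) (hpos : ∀ v, pos (bar v) = !pos v) {F : Finset V}
    (hF : Free s t bar sig F) (a : V) (ha : a ∉ F) :
    StarX L s t sig (F ∪ {a, bar a}) := by
  have hmem : ∀ v, v ∈ F ∪ {a, bar a} ↔ (v ∈ F ∨ v = a ∨ v = bar a) := by
    intro v
    rw [Finset.mem_union, Finset.mem_insert, Finset.mem_singleton]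
  intro π hπ
  obtain ⟨u, h1, h2, h3, h4, h5, -⟩ := star_free h hdg pos hpos hF a ha π
    (fun v hv hva hvb l => hπ v (fun h6 => by
      rcases (hmem v).1 h6 with h7 | h7 | h7
      · exact hv h7
      · exact hva h7
      · exact hvb h7) l)
  refine ⟨u, h1, fun C hC => ⟨h2 C hC, ?_⟩, h4, ?_⟩
  · intro v hv e he f hf hev hfv hef
    have h6 : ¬ (v ∈ F ∨ v = a ∨ v = bar a) := fun h7 => hv ((hmem v).2 h7)
    exact h3 C hC v (fun h7 => h6 (Or.inl h7)) (fun h7 => h6 (Or.inr (Or.inl h7)))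
      (fun h7 => h6 (Or.inr (Or.inr h7))) e he f hf hev hfv hef
  · intro v hv e he f hf _
    exact h5 v ((hmem v).1 hv) e he f hf

end Pool.Agent.Lib.MP_95bb8c_al.NI
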