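import Pool.Agent.Lib.MP_95bb8c_al.NI.Defs

set_option autoImplicit false
set_option linter.unusedSectionVars false

namespace Pool.Agent.Lib.MP_95bb8c_al.NI

open Finset Pool.Agent.Lib.MP_95bb8c_al.BU

variable {V E : Type} [Fintype V] [DecidableEq V] [Fintype E] [DecidableEq E]
variable {s t : E → V} {bar : V → V} {sig : V → E → E}

/-- An edge of `inn x` is only at `x` and `bar x`. -/
theorem inn_ends (h : Conn2 s t bar sig) {x v : V} {e : E} (he : e ∈ inn s t bar x)
    (hv : e ∈ cut s t {v}) : v = x ∨ v = bar x := by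
  unfold inn at he
  rw [Finset.mem_inter, mem_star h.hl, mem_star h.hl] at he
  rw [mem_star h.hl] at hv
  have h3 := h.bar_ne x
  rcases hv with h5 | h5
  · rcases he.1 with h6 | h6
    · exact Or.inl (h5.symm.trans h6)
    · rcases he.2 with h7 | h7
      · exact Or.inr (h5.symm.trans h7)
      · exact absurd (h7.symm.trans h6) h3
  · rcases he.1 with h6 | h6
    · rcases he.2 with h7 | h7
      · exact absurd (h7.symm.trans h6) h3
      · exact Or.inr (h5.symm.trans h7)
    · exact Or.inl (h5.symm.trans h6)

theorem inn_bar (h : Conn2 s t bar sig) (v : V) : inn s t bar (bar v) = inn s t bar v := by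
  unfold inn
  rw [h.bar_bar, Finset.inter_comm]

/-- Edges with an end outside of `F`, and edges whose ends are not partners, have weight `1`. -/
theorem kw_eq_one (h : Conn2 s t bar sig) (pos : V → Bool) {F : Finset V}
    (hF : Free s t bar sig F) {v : V} {e : E} (he : e ∈ cut s t {v})
    (hv : v ∉ F ∨ e ∉ cut s t {bar v}) : kw s t bar sig pos F e = 1 := by
  unfold kw
  rw [if_neg]
  rintro ⟨x, hx, -, hex, -⟩
  have h1 := inn_ends h hex he
  rcases hv with hv | hv
  · apply hv
    rcases h1 with rfl | rfl
    · exact hx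
    · exact hF.bar_mem x hx
  · apply hv
    unfold inn at hex
    rw [Finset.mem_inter] at hex
    rcases h1 with rfl | rfl
    · exact hex.2
    · rw [h.bar_bar]
      exact hex.1

/-- The edges at `v` outside of `inn v`. -/
private def ext (s t : E → V) (bar : V → V) (v : V) : Finset E :=
  (cut s t {v}).filter fun e => e ∉ cut s t {bar v}

private theorem inn_eq (s t : E → V) (bar : V → V) (v : V) :
    (cut s t {v}).filter (fun e => e ∈ cut s t {bar v}) = inn s t bar v := by
  ext e
  unfold inn
  rw [Finset.mem_filter, Finset.mem_inter]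

private theorem card_ext (h : Conn2 s t bar sig) (v : V) :
    (ext s t bar (bar v)).card = (ext s t bar v).card := by
  have h1 : ∀ v, (inn s t bar v).card + (ext s t bar v).card = (cut s t {v}).card := by
    intro v
    rw [← inn_eq, ext]
    exact Finset.card_filter_add_card_filter_not _
  have h2 := h1 v
  have h3 := h1 (bar v)
  rw [inn_bar h] at h3
  have h4 := h.dg_bar v
  unfold dg at h4
  omega

private theorem sum_ext (h : Conn2 s t bar sig) (pos : V → Bool) {F : Finset V}
    (hF : Free s t bar sig F) (v : V) :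
    ∑ e ∈ (cut s t {v}).filter (fun e => e ∉ cut s t {bar v}), kw s t bar sig pos F e =
      ((ext s t bar v).card : ℚ) := by
  have h1 : ∀ e ∈ (cut s t {v}).filter (fun e => e ∉ cut s t {bar v}),
      kw s t bar sig pos F e = 1 := by
    intro e he
    rw [Finset.mem_filter] at he
    exact kw_eq_one h pos hF he.1 (Or.inr he.2)
  rw [Finset.sum_congr rfl h1, Finset.sum_const, nsmul_eq_mul, mul_one]
  rfl

private theorem sum_inn (h : Conn2 s t bar sig) (pos : V → Bool)
    (hpos : ∀ v, pos (bar v) = !pos v) {F : Finset V} (hF : Free s t bar sig F) {v : V}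
    (hv : v ∈ F) (hpv : pos v = true) :
    ∑ e ∈ inn s t bar v, kw s t bar sig pos F e = ((ext s t bar v).card : ℚ) := by
  have h1 : ∀ e ∈ inn s t bar v, kw s t bar sig pos F e =
      if sig (bar v) e ∈ cut s t {bar v} then 0 else 1 := by
    intro e he
    unfold kw
    by_cases h2 : sig (bar v) e ∈ cut s t {bar v}
    · rw [if_pos h2, if_pos]
      exact ⟨v, hv, hpv, he, h2⟩
    · rw [if_neg h2, if_neg]
      rintro ⟨x, hx, hpx, hex, h3⟩
      have h4 : e ∈ cut s t {v} := by
        unfold inn at he
        exact (Finset.mem_inter.1 he).1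
      rcases inn_ends h hex h4 with rfl | rfl
      · exact h2 h3
      · rw [hpos, hpx] at hpv
        exact Bool.noConfusion hpv
  rw [Finset.sum_congr rfl h1, Finset.sum_ite, Finset.sum_const_zero, zero_add, Finset.sum_const,
    nsmul_eq_mul, mul_one]
  congr 1
  refine Finset.card_nbij' (sig (bar v)) (sig v) ?_ ?_ ?_ ?_
  · intro e he
    rw [Finset.mem_coe, Finset.mem_filter] at he
    rw [Finset.mem_coe, ext, Finset.mem_filter]
    refine ⟨(h.inv' v ?_).1, he.2⟩
    have := he.1
    unfold inn at this
    exact (Finset.mem_inter.1 this).2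
  · intro e he
    rw [Finset.mem_coe, ext, Finset.mem_filter] at he
    rw [Finset.mem_coe, Finset.mem_filter]
    have h2 := hF.nb v hv e he.1 he.2
    have h3 := h.mem v e he.1
    refine ⟨?_, ?_⟩
    · unfold inn
      exact Finset.mem_inter.2 ⟨h2, h3⟩
    · rw [h.inv v e he.1]
      exact he.2
  · intro e he
    rw [Finset.mem_coe, Finset.mem_filter] at he
    have := he.1
    unfold inn at this
    exact (h.inv' v (Finset.mem_inter.1 this).2).2
  · intro e he
    rw [Finset.mem_coe, ext, Finset.mem_filter] at he
    exact h.inv v e he.1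

/-- At a free vertex the edges of `inn v` weigh as much as the other edges. -/
theorem kw_half (h : Conn2 s t bar sig) (pos : V → Bool) (hpos : ∀ v, pos (bar v) = !pos v)
    {F : Finset V} (hF : Free s t bar sig F) {v : V} (hv : v ∈ F) :
    ∑ e ∈ (cut s t {v}).filter (fun e => e ∈ cut s t {bar v}), kw s t bar sig pos F e =
      ∑ e ∈ (cut s t {v}).filter (fun e => e ∉ cut s t {bar v}), kw s t bar sig pos F e := by
  rw [sum_ext h pos hF, inn_eq]
  by_cases hpv : pos v = true
  · exact sum_inn h pos hpos hF hv hpv
  · have h1 : pos (bar v) = true := by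
      rw [hpos]
      cases h2 : pos v
      · rfl
      · exact absurd h2 hpv
    rw [← inn_bar h, sum_inn h pos hpos hF (hF.bar_mem v hv) h1, card_ext h]

private theorem kw_nonneg (pos : V → Bool) (F : Finset V) (e : E) :
    0 ≤ kw s t bar sig pos F e := by
  unfold kw
  split_ifs
  · exact le_rfl
  · exact zero_le_one

/-- Dropping a separated free vertex does not increase the cut. -/
private theorem drop_one (h : Conn2 s t bar sig) (pos : V → Bool)
    (hpos : ∀ v, pos (bar v) = !pos v) {F : Finset V} (hF : Free s t bar sig F) {b : V}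
    (hb : b ∈ F) (T : Finset V) (hbT : b ∈ T) (hbT' : bar b ∉ T) :
    ∑ e ∈ cut s t (T.erase b), kw s t bar sig pos F e ≤
      ∑ e ∈ cut s t T, kw s t bar sig pos F e := by
  have h1 := kw_half h pos hpos hF hb
  -- the edges of the new cut which are not at `b` are in the old cut
  have h2 : cut s t (T.erase b) ⊆
      ((cut s t T) \ (cut s t {b})) ∪ (cut s t {b}).filter (fun e => e ∉ cut s t {bar b}) := by
    intro e he
    rw [mem_cut, Finset.mem_erase, Finset.mem_erase] at he
    rw [Finset.mem_union, Finset.mem_sdiff, Finset.mem_filter, mem_star h.hl, mem_star h.hl,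
      mem_cut]
    by_cases h3 : s e = b
    · have h4 : t e ≠ b := fun h5 => h.hl e (h3.trans h5.symm)
      refine Or.inr ⟨Or.inl h3, ?_⟩
      rintro (h5 | h5)
      · exact h.bar_ne b (h5.symm.trans h3)
      · apply he
        refine iff_of_false (fun h6 => h6.1 h3) ?_
        rw [h5]
        exact fun h6 => hbT' h6.2
    · by_cases h4 : t e = b
      · refine Or.inr ⟨Or.inr h4, ?_⟩
        rintro (h5 | h5)
        · apply he
          refine iff_of_false ?_ (fun h6 => h6.1 h4)
          rw [h5]
          exact fun h6 => hbT' h6.2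
        · exact h.bar_ne b (h5.symm.trans h4)
      · left
        refine ⟨?_, ?_⟩
        · intro h5
          apply he
          constructor
          · exact fun h6 => ⟨h4, h5.1 h6.2⟩
          · exact fun h6 => ⟨h3, h5.2 h6.2⟩
        · rintro (h5 | h5)
          · exact h3 h5
          · exact h4 h5
  have h3 : ((cut s t T) \ (cut s t {b})) ∪
      (cut s t {b}).filter (fun e => e ∈ cut s t {bar b}) ⊆ cut s t T := by
    intro e he
    rw [Finset.mem_union, Finset.mem_sdiff, Finset.mem_filter, mem_star h.hl, mem_star h.hl] at he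
    rcases he with he | ⟨h4, h5⟩
    · exact he.1
    · rw [mem_cut]
      rcases h4 with h4 | h4
      · rcases h5 with h5 | h5
        · exact absurd (h5.symm.trans h4) (h.bar_ne b)
        · rw [h4, h5]
          exact fun h6 => hbT' (h6.1 hbT)
      · rcases h5 with h5 | h5
        · rw [h4, h5]
          exact fun h6 => hbT' (h6.2 hbT)
        · exact absurd (h5.symm.trans h4) (h.bar_ne b)
  have hd1 : Disjoint ((cut s t T) \ (cut s t {b}))
      ((cut s t {b}).filter (fun e => e ∉ cut s t {bar b})) :=
    Finset.disjoint_of_subset_right (Finset.filter_subset _ _) Finset.sdiff_disjoint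
  have hd2 : Disjoint ((cut s t T) \ (cut s t {b}))
      ((cut s t {b}).filter (fun e => e ∈ cut s t {bar b})) :=
    Finset.disjoint_of_subset_right (Finset.filter_subset _ _) Finset.sdiff_disjoint
  calc ∑ e ∈ cut s t (T.erase b), kw s t bar sig pos F e
      ≤ ∑ e ∈ ((cut s t T) \ (cut s t {b})) ∪
          (cut s t {b}).filter (fun e => e ∉ cut s t {bar b}), kw s t bar sig pos F e :=
        Finset.sum_le_sum_of_subset_of_nonneg h2 fun e _ _ => kw_nonneg pos F e
    _ = ∑ e ∈ ((cut s t T) \ (cut s t {b})) ∪
          (cut s t {b}).filter (fun e => e ∈ cut s t {bar b}), kw s t bar sig pos F e := by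
        rw [Finset.sum_union hd1, Finset.sum_union hd2, h1]
    _ ≤ ∑ e ∈ cut s t T, kw s t bar sig pos F e :=
        Finset.sum_le_sum_of_subset_of_nonneg h3 fun e _ _ => kw_nonneg pos F e

open Classical in
private theorem sum_kw (pos : V → Bool) (F : Finset V) (A : Finset E) :
    ∑ e ∈ A, kw s t bar sig pos F e =
      (A.card : ℚ) - ((A.filter fun e => Zero s t bar sig pos F e).card : ℚ) := by
  have h1 : ∑ e ∈ A, kw s t bar sig pos F e =
      ((A.filter fun e => ¬ Zero s t bar sig pos F e).card : ℚ) := by
    unfold kw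
    rw [Finset.sum_ite, Finset.sum_const_zero, zero_add, Finset.sum_const, nsmul_eq_mul, mul_one]
  have h2 := Finset.card_filter_add_card_filter_not (s := A)
    (fun e => Zero s t bar sig pos F e)
  rw [h1, ← h2]
  push_cast
  ring

/-- The cut condition for the weights `kw`. -/
theorem kw_cut (h : Conn2 s t bar sig) (pos : V → Bool) (hpos : ∀ v, pos (bar v) = !pos v)
    {F : Finset V} (hF : Free s t bar sig F) (v : V) (S : Finset V) (hv : v ∈ S)
    (hv' : bar v ∉ S) :
    ∑ e ∈ cut s t {v}, kw s t bar sig pos F e ≤ ∑ e ∈ cut s t S, kw s t bar sig pos F e := by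
  classical
  set D := S.filter fun b => b ∈ F ∧ b ≠ v ∧ bar b ∉ S with hD
  have hdrop : ∀ D' : Finset V, D' ⊆ D →
      ∑ e ∈ cut s t (S \ D'), kw s t bar sig pos F e ≤
        ∑ e ∈ cut s t S, kw s t bar sig pos F e := by
    intro D'
    induction D' using Finset.induction_on with
    | empty =>
      intro _
      rw [Finset.sdiff_empty]
    | insert b D' hb ih =>
      intro hsub
      have h1 : b ∈ D := hsub (Finset.mem_insert_self b D')
      have h2 : D' ⊆ D := fun x hx => hsub (Finset.mem_insert_of_mem hx)
      rw [hD, Finset.mem_filter] at h1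
      have h3 : S \ insert b D' = (S \ D').erase b := by
        ext x
        simp only [Finset.mem_sdiff, Finset.mem_insert, Finset.mem_erase]
        tauto
      rw [h3]
      refine le_trans (drop_one h pos hpos hF h1.2.1 (S \ D')
        (Finset.mem_sdiff.2 ⟨h1.1, hb⟩) ?_) (ih h2)
      exact fun h4 => h1.2.2.2 (Finset.mem_sdiff.1 h4).1
  refine le_trans ?_ (hdrop D (Finset.Subset.refl D))
  rw [sum_kw, sum_kw]
  have hvS : v ∈ S \ D := by
    rw [Finset.mem_sdiff, hD, Finset.mem_filter]
    exact ⟨hv, fun h1 => h1.2.2.1 rfl⟩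
  have hvS' : bar v ∉ S \ D := fun h1 => hv' (Finset.mem_sdiff.1 h1).1
  have h1 := h.lam v (S \ D) hvS hvS'
  unfold dg at h1
  have h2 : ((cut s t (S \ D)).filter fun e => Zero s t bar sig pos F e).card ≤
      ((cut s t {v}).filter fun e => Zero s t bar sig pos F e).card := by
    apply Finset.card_le_card
    intro e he
    rw [Finset.mem_filter] at he ⊢
    refine ⟨?_, he.2⟩
    obtain ⟨x, hx, -, hex, -⟩ := he.2
    have hex' := hex
    unfold inn at hex'
    rw [Finset.mem_inter] at hex'
    by_cases hxv : x = v
    · rw [← hxv]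
      exact hex'.1
    by_cases hxv' : bar x = v
    · rw [← hxv']
      exact hex'.2
    exfalso
    have hxS : ∀ y, y ∈ F → y ≠ v → y ∈ S \ D → bar y ≠ v → bar y ∈ S \ D := by
      intro y hy hyv hyS hyv'
      rw [Finset.mem_sdiff, hD, Finset.mem_filter] at hyS ⊢
      have h3 : bar y ∈ S := by
        by_contra h4
        exact hyS.2 ⟨hyS.1, hy, hyv, h4⟩
      refine ⟨h3, ?_⟩
      rintro ⟨-, -, -, h4⟩
      rw [h.bar_bar] at h4
      exact h4 hyS.1
    have h3 : x ∈ S \ D ↔ bar x ∈ S \ D := by
      constructor
      · exact fun h4 => hxS x hx hxv h4 hxv'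
      · intro h4
        have h5 := hxS (bar x) (hF.bar_mem x hx) hxv' h4 (by rw [h.bar_bar]; exact hxv)
        rw [h.bar_bar] at h5
        exact h5
    have h4 := he.1
    rw [mem_cut] at h4
    rw [mem_star h.hl, mem_star h.hl] at hex'
    apply h4
    rcases hex'.1 with h5 | h5
    · rcases hex'.2 with h6 | h6
      · exact absurd (h6.symm.trans h5) (h.bar_ne x)
      · rw [h5, h6]
        exact h3
    · rcases hex'.2 with h6 | h6
      · rw [h5, h6]
        exact h3.symm
      · exact absurd (h6.symm.trans h5) (h.bar_ne x)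
  have h3 : ((cut s t {v}).card : ℚ) ≤ ((cut s t (S \ D)).card : ℚ) := by exact_mod_cast h1
  have h4 : (((cut s t (S \ D)).filter fun e => Zero s t bar sig pos F e).card : ℚ) ≤
      (((cut s t {v}).filter fun e => Zero s t bar sig pos F e).card : ℚ) := by
    exact_mod_cast h2
  linarith

end Pool.Agent.Lib.MP_95bb8c_al.NI
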