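import Pool.Agent.Lib.MP_95bb8c_al.NI.KCut

set_option autoImplicit false
set_option linter.unusedSectionVars false

namespace Pool.Agent.Lib.MP_95bb8c_al.NI

open Finset Pool.Agent.Lib.MP_95bb8c_al.BU

variable {V E L : Type} [Fintype V] [DecidableEq V] [Fintype E] [DecidableEq E]
  [Fintype L] [DecidableEq L]
variable {s t : E → V} {bar : V → V} {sig : V → E → E}

theorem kw_nonneg (pos : V → Bool) (F : Finset V) (e : E) : 0 ≤ kw s t bar sig pos F e := by
  unfold kw
  split_ifs <;> norm_num

/-- The star law for the weights `kw`: balanced at `a` and `bar a`; at the free vertices all turns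
are between an edge of `inn v` and another edge. -/
theorem star_law_kw (h : Conn2 s t bar sig) (hdg : ∀ v, (cut s t {v}).card ≠ 1)
    (pos : V → Bool) (hpos : ∀ v, pos (bar v) = !pos v) {F : Finset V}
    (hF : Free s t bar sig F) (a : V) (ha : a ∉ F) (π : V → E → L)
    (hπ : ∀ v, v ∉ F → v ≠ a → v ≠ bar a → ∀ l, 2 * (part s t π v l).card ≤ dg s t v) :
    ∃ u : Finset E → ℚ, (∀ C, 0 ≤ u C) ∧ (∀ C, u C ≠ 0 → IsCycle s t C) ∧
      (∀ C, u C ≠ 0 → ∀ v, v ∉ F → v ≠ a → v ≠ bar a → ∀ e ∈ C, ∀ f ∈ C,
        e ∈ cut s t {v} → f ∈ cut s t {v} → e ≠ f → π v e ≠ π v f) ∧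
      (∀ C, u C ≠ 0 → ∀ v ∈ F, ∀ e ∈ C, ∀ f ∈ C, e ∈ cut s t {v} → f ∈ cut s t {v} → e ≠ f →
        (e ∈ cut s t {bar v} ↔ f ∉ cut s t {bar v})) ∧
      (∀ e, ∑ C, (if e ∈ C then u C else 0) = kw s t bar sig pos F e) ∧
      ∀ v, (v = a ∨ v = bar a) → ∀ e ∈ cut s t {v}, ∀ f ∈ cut s t {v},
        pw u e f = pw u (sig v e) (sig v f) := by
  classical
  set k : E → ℚ := kw s t bar sig pos F with hk
  have hk0 : ∀ e, 0 ≤ k e := fun e => kw_nonneg pos F e
  have hbF : ∀ v, v ∉ F → bar v ∉ F := by
    intro v hv h1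
    apply hv
    have h2 := hF.bar_mem _ h1
    rwa [h.bar_bar] at h2
  have hba : bar a ∉ F := hbF a ha
  have hab : ∀ v, (v = a ∨ v = bar a) → v ∉ F := by
    rintro v (rfl | rfl)
    · exact ha
    · exact hba
  have hk1 : ∀ v, v ∉ F → ∀ e ∈ cut s t {v}, k e = 1 := fun v hv e he =>
    kw_eq_one h pos hF he (Or.inl hv)
  set P : V → E → L ⊕ (E ⊕ Bool) := fun v e =>
    if v = a ∨ v = bar a then Sum.inr (Sum.inl e)
    else if v ∈ F then Sum.inr (Sum.inr (decide (e ∈ cut s t {bar v}))) else Sum.inl (π v e)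
    with hPdef
  have hPs : ∀ v, (v = a ∨ v = bar a) → ∀ e, P v e = Sum.inr (Sum.inl e) := by
    intro v hv e
    simp only [hPdef, if_pos hv]
  have hPF : ∀ v, v ∈ F → ∀ e, P v e = Sum.inr (Sum.inr (decide (e ∈ cut s t {bar v}))) := by
    intro v hv e
    simp only [hPdef]
    rw [if_neg (fun h1 => hab v h1 hv), if_pos hv]
  have hPn : ∀ v, v ∉ F → ¬ (v = a ∨ v = bar a) → ∀ e, P v e = Sum.inl (π v e) := by
    intro v hv hv2 e
    simp only [hPdef, if_neg hv2, if_neg hv]
  have hpart : ∀ v S, v ∈ S → bar v ∉ S → ∑ e ∈ cut s t {v}, k e ≤ ∑ e ∈ cut s t S, k e :=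
    fun v S h1 h2 => kw_cut h pos hpos hF v S h1 h2
  have hsum1 : ∀ v, v ∉ F → ∑ e ∈ cut s t {v}, k e = ((cut s t {v}).card : ℚ) := by
    intro v hv
    rw [Finset.sum_congr rfl (hk1 v hv), Finset.sum_const, nsmul_eq_mul, mul_one]
  have hsum0 : ∀ v, 0 ≤ ∑ e ∈ cut s t {v}, k e := fun v => Finset.sum_nonneg fun e _ => hk0 e
  have hP : ∀ v (l : L ⊕ (E ⊕ Bool)), 2 * W.part s t P k v l ≤ ∑ e ∈ cut s t {v}, k e := by
    intro v l
    by_cases hv : v ∈ F
    · have h2 := kw_half h pos hpos hF hv
      have h1 : ∑ e ∈ cut s t {v}, k e =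
          2 * ∑ e ∈ (cut s t {v}).filter (fun e => e ∉ cut s t {bar v}), k e := by
        rw [← Finset.sum_filter_add_sum_filter_not (cut s t {v})
          (fun e => e ∈ cut s t {bar v}) k]
        rw [hk]
        rw [h2]
        ring
      unfold W.part
      rw [← Finset.sum_filter]
      rcases l with l | ⟨g | x⟩
      · rw [Finset.filter_false_of_mem (fun e _ h3 => by rw [hPF v hv] at h3; cases h3),
          Finset.sum_empty, mul_zero]
        exact hsum0 v
      · rw [Finset.filter_false_of_mem (fun e _ h3 => by rw [hPF v hv] at h3; cases h3),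
          Finset.sum_empty, mul_zero]
        exact hsum0 v
      · cases x
        · have h3 : (cut s t {v}).filter (fun e => P v e = Sum.inr (Sum.inr false)) =
              (cut s t {v}).filter (fun e => e ∉ cut s t {bar v}) := by
            refine Finset.filter_congr fun e _ => ?_
            rw [hPF v hv]
            simp
          rw [h3, h1]
        · have h3 : (cut s t {v}).filter (fun e => P v e = Sum.inr (Sum.inr true)) =
              (cut s t {v}).filter (fun e => e ∈ cut s t {bar v}) := by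
            refine Finset.filter_congr fun e _ => ?_
            rw [hPF v hv]
            simp
          rw [h3, h1, hk]
          rw [h2]
    · rw [hsum1 v hv]
      have h3 : W.part s t P k v l = (((cut s t {v}).filter fun e => P v e = l).card : ℚ) := by
        unfold W.part
        rw [← Finset.sum_filter, Finset.sum_congr rfl
          (fun e he => hk1 v hv e (Finset.mem_filter.1 he).1), Finset.sum_const, nsmul_eq_mul,
          mul_one]
      rw [h3]
      by_cases hva : v = a ∨ v = bar a
      · have h4 : ((cut s t {v}).filter fun e => P v e = l).card ≤ 1 := by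
          rw [Finset.card_le_one]
          intro e he g hg
          rw [Finset.mem_filter, hPs v hva] at he hg
          exact Sum.inl.inj (Sum.inr.inj (he.2.trans hg.2.symm))
        have h5 : ((cut s t {v}).filter fun e => P v e = l).card ≤ (cut s t {v}).card :=
          Finset.card_le_card (Finset.filter_subset _ _)
        have h6 := hdg v
        have h7 : 2 * ((cut s t {v}).filter fun e => P v e = l).card ≤ (cut s t {v}).card := by
          omega
        exact_mod_cast h7
      · rcases l with l | g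
        · have h4 : ((cut s t {v}).filter fun e => P v e = Sum.inl l) = part s t π v l := by
            unfold part
            apply Finset.filter_congr
            intro e _
            rw [hPn v hv hva, Sum.inl.injEq]
          rw [h4]
          have h5 := hπ v hv (fun h6 => hva (Or.inl h6)) (fun h6 => hva (Or.inr h6)) l
          unfold dg at h5
          exact_mod_cast h5
        · have h4 : ((cut s t {v}).filter fun e => P v e = Sum.inr g) = ∅ := by
            rw [Finset.filter_eq_empty_iff]
            intro e _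
            rw [hPn v hv hva]
            simp
          rw [h4, Finset.card_empty]
          simp
  have hturn : ∀ C : Finset E, (∀ v, ∀ e ∈ C ∩ cut s t {v}, ∀ f ∈ C ∩ cut s t {v}, e ≠ f →
      P v e ≠ P v f) → (∀ v, v ∉ F → v ≠ a → v ≠ bar a → ∀ e ∈ C, ∀ f ∈ C,
        e ∈ cut s t {v} → f ∈ cut s t {v} → e ≠ f → π v e ≠ π v f) ∧
      (∀ v ∈ F, ∀ e ∈ C, ∀ f ∈ C, e ∈ cut s t {v} → f ∈ cut s t {v} → e ≠ f →
        (e ∈ cut s t {bar v} ↔ f ∉ cut s t {bar v})) := by
    intro C hC
    refine ⟨?_, ?_⟩
    · intro v hvF hva hvb e he f hf hev hfv hef h3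
      have hv : ¬ (v = a ∨ v = bar a) := by
        rintro (h4 | h4)
        · exact hva h4
        · exact hvb h4
      apply hC v e (Finset.mem_inter.mpr ⟨he, hev⟩) f (Finset.mem_inter.mpr ⟨hf, hfv⟩) hef
      rw [hPn v hvF hv, hPn v hvF hv, h3]
    · intro v hv e he f hf hev hfv hef
      have h1 := hC v e (Finset.mem_inter.mpr ⟨he, hev⟩) f (Finset.mem_inter.mpr ⟨hf, hfv⟩) hef
      rw [hPF v hv, hPF v hv] at h1
      by_cases h2 : e ∈ cut s t {bar v} <;> by_cases h3 : f ∈ cut s t {bar v} <;>
        simp_all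
  have hmargself : ∀ u : Finset E → ℚ, (∀ e, ∑ C, (if e ∈ C then u C else 0) = k e) →
      ∀ e, pw u e e = k e := by
    intro u hu e
    rw [← hu e]
    unfold pw
    refine Finset.sum_congr rfl fun C _ => ?_
    simp only [and_self]
  by_cases hd0 : (cut s t {a}).card = 0
  · have hd1 : (cut s t {bar a}).card = 0 := by
      have := h.dg_bar a
      unfold dg at this
      omega
    obtain ⟨u, hu0, hu1, hu2⟩ := W.star_law h.hl k hk0 bar h.bar_ne hpart P hP
    refine ⟨u, hu0, fun C hC => (hu1 C hC).1, fun C hC => (hturn C (hu1 C hC).2).1,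
      fun C hC => (hturn C (hu1 C hC).2).2, hu2, ?_⟩
    intro v hv e he
    rw [Finset.card_eq_zero] at hd0 hd1
    rcases hv with rfl | rfl
    · rw [hd0] at he
      exact absurd he (Finset.notMem_empty _)
    · rw [hd1] at he
      exact absurd he (Finset.notMem_empty _)
  · have hdb : (cut s t {bar a}).card = (cut s t {a}).card := h.dg_bar a
    obtain ⟨u, hu0, hu1, hu2, hu3⟩ := W.star_law_bal h.hl k hk0 bar
      h.bar_ne hpart P hP (a := a) (b := bar a) (h.bar_ne a).symm
      (d := ((cut s t {a}).card : ℚ)) (by exact_mod_cast Nat.pos_of_ne_zero hd0) (hsum1 a ha)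
      (by rw [hsum1 _ hba, hdb]) (fun S h1 h2 => by
        have h3 := hpart a S h1 h2
        rw [hsum1 a ha] at h3
        exact h3)
      (fun e _ e' _ h3 => by
        rw [hPs a (Or.inl rfl), hPs a (Or.inl rfl)] at h3
        exact Sum.inl.inj (Sum.inr.inj h3))
      (fun e _ e' _ h3 => by
        rw [hPs (bar a) (Or.inr rfl), hPs (bar a) (Or.inr rfl)] at h3
        exact Sum.inl.inj (Sum.inr.inj h3))
      (sig (bar a)) (sig a) (Sum.map id (Sum.map (sig (bar a)) id))
      (Sum.map id (Sum.map (sig a) id))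
      (fun e _ => by
        rw [hPs a (Or.inl rfl), hPs (bar a) (Or.inr rfl)]
        rfl)
      (fun e _ => by
        rw [hPs a (Or.inl rfl), hPs (bar a) (Or.inr rfl)]
        rfl)
      (fun e he => ⟨(h.inv' a he).1, (h.inv' a he).2, by
        rw [hk1 a ha _ (h.inv' a he).1, hk1 _ hba e he]⟩)
      (fun e he => ⟨h.mem a e he, h.inv a e he, by
        rw [hk1 _ hba _ (h.mem a e he), hk1 a ha e he]⟩)
    have hbal : ∀ e ∈ cut s t {bar a}, ∀ f ∈ cut s t {bar a},
        pw u e f = pw u (sig (bar a) e) (sig (bar a) f) := by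
      intro e he f hf
      by_cases hef : e = f
      · subst hef
        rw [hmargself u hu2, hmargself u hu2, hk1 a ha _ (h.inv' a he).1, hk1 _ hba e he]
      · exact hu3 e he f hf (by rw [hk1 _ hba e he]; exact one_ne_zero)
          (by rw [hk1 _ hba f hf]; exact one_ne_zero) hef
    refine ⟨u, hu0, fun C hC => (hu1 C hC).1, fun C hC => (hturn C (hu1 C hC).2).1,
      fun C hC => (hturn C (hu1 C hC).2).2, hu2, ?_⟩
    rintro v (rfl | rfl) e he f hf
    · have h3 := hbal _ (h.mem v e he) _ (h.mem v f hf)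
      rw [h.inv v e he, h.inv v f hf] at h3
      exact h3.symm
    · exact hbal e he f hf

end Pool.Agent.Lib.MP_95bb8c_al.NI
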